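import Pool.Agent.H18.CGR.Stmts

/-!
Row NBD of the board for MP_286349_an: the growth bound of `nn`.
-/

namespace Pool.CGR

theorem nbd_thm (h1 : CONStmt) : NBDStmt := by
  intro m κ h0 u
  induction u with
  | nil =>
    intro w
    refine (h0 w).trans ?_
    rw [List.length_nil, pow_zero, one_mul]
    exact pow_le_pow_left₀ (by norm_num) (by norm_num) _
  | cons a u ih =>
    intro w
    have h2 := h1 (Fin m) κ a u [] w
    rw [List.nil_append] at h2
    rw [h2]
    have h3 : ∀ k ∈ Finset.range w.length,
        ‖(if w[k]? = some a then nn κ (w.take k) u * nn κ (w.drop (k + 1)) [] else 0 : ℂ)‖ ≤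
          4 ^ u.length * ((5 / 2) ^ k * (9 / 4) ^ (w.length - 1 - k)) := by
      intro k hk
      rw [Finset.mem_range] at hk
      split_ifs with h4
      · rw [norm_mul]
        have h5 := ih (w.take k)
        have h6 := h0 (w.drop (k + 1))
        rw [List.length_take, min_eq_left hk.le] at h5
        rw [List.length_drop, show w.length - (k + 1) = w.length - 1 - k by omega] at h6
        calc ‖nn κ (w.take k) u‖ * ‖nn κ (w.drop (k + 1)) []‖
            ≤ (4 ^ u.length * (5 / 2) ^ k) * (9 / 4) ^ (w.length - 1 - k) :=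
              mul_le_mul h5 h6 (norm_nonneg _) (by positivity)
          _ = 4 ^ u.length * ((5 / 2) ^ k * (9 / 4) ^ (w.length - 1 - k)) := by ring
      · rw [norm_zero]
        positivity
    refine (norm_sum_le _ _).trans ((Finset.sum_le_sum h3).trans ?_)
    rw [← Finset.mul_sum, List.length_cons, pow_succ, mul_assoc]
    refine mul_le_mul_of_nonneg_left ?_ (by positivity)
    have h7 := Commute.geom_sum₂_mul (Commute.all (5 / 2 : ℝ) (9 / 4)) w.length
    have h8 : (0 : ℝ) ≤ (9 / 4) ^ w.length := by positivity
    have h9 : (5 / 2 : ℝ) - 9 / 4 = 1 / 4 := by norm_num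
    rw [h9] at h7
    linarith

end Pool.CGR
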